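import Pool.Agent.TH609.E3.Stm

/-!
# Project Z3, R1 and R2: the sum of the double residues
-/

open Polynomial Pool.Agent.H337R2 Filter Topology

namespace Pool.Agent.TH609.E3.W924.R1

open Pool.Agent.TH609.E3

theorem cc_TS (c : ℚ) (P : ℚ[X]) : PowerSeries.coeff 0 (TS c P) = P.eval c := by
  simp [TS, Polynomial.taylor_coeff_zero]

theorem cc_iv (a : ℚ) : PowerSeries.constantCoeff (iv a) = 1 / a := by
  simp [iv]

theorem neg_prod (k M : ℕ) : ∏ j ∈ Finset.Icc 1 M, (-(k : ℚ) + (j : ℚ)) =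
    (-1) ^ M * ∏ j ∈ Finset.Icc 1 M, ((k : ℚ) - j) := by
  have e : ∏ j ∈ Finset.Icc 1 M, (-(k : ℚ) + (j : ℚ)) = ∏ j ∈ Finset.Icc 1 M, (-((k : ℚ) - j)) :=
    Finset.prod_congr rfl fun j _ => by ring
  rw [e, Finset.prod_neg, Nat.card_Icc, Nat.add_sub_cancel]

theorem eval_PF (n : ℕ) (k : ℕ) : (PF n).eval (-(k : ℚ)) =
    cF n * ((∏ j ∈ Finset.Icc 1 (3 * n), ((k : ℚ) - j)) *
      ∏ j ∈ Finset.Icc 1 (5 * n), ((k : ℚ) - j)) := by
  have h4 := neg_prod k (3 * n)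
  have h6 := neg_prod k (5 * n)
  have hs : (-1 : ℚ) ^ (3 * n) * (-1) ^ (5 * n) = 1 := by
    rw [← pow_add, show 3 * n + 5 * n = 2 * (4 * n) by ring, pow_mul, neg_one_sq, one_pow]
  have a1 : ∀ M : ℕ, ∏ j ∈ Finset.Icc 1 M, eval (-(k : ℚ)) (X + C (j : ℚ)) =
      ∏ j ∈ Finset.Icc 1 M, (-(k : ℚ) + (j : ℚ)) := fun M =>
    Finset.prod_congr rfl fun j _ => by simp
  unfold PF
  rw [eval_mul, eval_C, eval_mul, eval_prod, eval_prod, a1, a1, h4, h6]
  generalize (∏ j ∈ Finset.Icc 1 (3 * n), ((k : ℚ) - j)) = A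
  generalize (∏ j ∈ Finset.Icc 1 (5 * n), ((k : ℚ) - j)) = B
  calc cF n * ((-1) ^ (3 * n) * A * ((-1) ^ (5 * n) * B)) =
      cF n * (((-1) ^ (3 * n) * (-1) ^ (5 * n)) * (A * B)) := by ring
    _ = cF n * (A * B) := by rw [hs, one_mul]

theorem pa2 (n k : ℕ) (Q : ℚ[X]) :
    pa (sF n) mF (PF n * Q) k 2 = RK n k * Q.eval (-(k : ℚ)) := by
  unfold pa
  rw [if_pos le_rfl]
  unfold pfc
  rw [Nat.sub_self, PowerSeries.coeff_zero_eq_constantCoeff_apply, map_mul,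
    ← PowerSeries.coeff_zero_eq_constantCoeff_apply, cc_TS, eval_mul, eval_PF]
  unfold VV
  rw [map_prod]
  have e : ∏ m ∈ (sF n).erase k, PowerSeries.constantCoeff (iv (-(k : ℚ) + (m : ℚ)) ^ mF m) =
      (∏ m ∈ (sF n).erase k, ((m : ℚ) - k) ^ 2)⁻¹ := by
    rw [← Finset.prod_inv_distrib]
    refine Finset.prod_congr rfl fun m _ => ?_
    rw [map_pow, cc_iv, one_div, neg_add_eq_sub, inv_pow]
  rw [e]
  unfold RK
  rw [div_eq_mul_inv]
  ring

theorem RK_zero {n k : ℕ} (h1 : 1 ≤ k) (h : k ≤ 5 * n) : RK n k = 0 := by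
  unfold RK
  have e : ∏ j ∈ Finset.Icc 1 (5 * n), ((k : ℚ) - j) = 0 :=
    Finset.prod_eq_zero (Finset.mem_Icc.2 ⟨h1, h⟩) (sub_self _)
  rw [e, mul_zero, mul_zero, zero_div]

theorem cF_nonneg (n : ℕ) : 0 ≤ cF n := by
  unfold cF
  positivity

theorem RK_nonneg {n k : ℕ} (h : 5 * n < k) : 0 ≤ RK n k := by
  unfold RK
  refine div_nonneg (mul_nonneg (cF_nonneg n) (mul_nonneg ?_ ?_)) ?_
  · refine Finset.prod_nonneg fun j hj => sub_nonneg.2 ?_
    have := (Finset.mem_Icc.1 hj).2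
    exact_mod_cast (by omega : j ≤ k)
  · refine Finset.prod_nonneg fun j hj => sub_nonneg.2 ?_
    have := (Finset.mem_Icc.1 hj).2
    exact_mod_cast (by omega : j ≤ k)
  · exact Finset.prod_nonneg fun m _ => sq_nonneg _

theorem rho_eq (n : ℕ) (Q : ℚ[X]) : rho n (PF n * Q) =
    ∑ k ∈ Finset.Icc (5 * n + 1) (12 * n), RK n k * Q.eval (-(k : ℚ)) := by
  unfold rho
  simp only [pa2]
  symm
  apply Finset.sum_subset
  · intro k hk
    rw [Finset.mem_Icc] at hk ⊢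
    omega
  · intro k hk hk2
    rw [Finset.mem_Icc] at hk hk2
    rw [RK_zero (by omega) (by omega), zero_mul]

/-- R1 -/
theorem main : StR1 := by
  intro n _ Q
  rw [rho_eq]
  refine (Finset.abs_sum_le_sum_abs _ _).trans (le_of_eq (Finset.sum_congr rfl fun k hk => ?_))
  rw [Finset.mem_Icc] at hk
  rw [abs_mul, abs_of_nonneg (RK_nonneg (by omega))]

theorem prod_desc (k M : ℕ) (h : M < k) :
    ∏ j ∈ Finset.Icc 1 M, ((k : ℚ) - j) = (M.factorial : ℚ) * ((k - 1).choose M : ℚ) := by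
  have e : ∏ j ∈ Finset.Icc 1 M, ((k : ℚ) - j) = ((k - 1).descFactorial M : ℚ) := by
    induction M with
    | zero => simp
    | succ M ih =>
      rw [Finset.prod_Icc_succ_top (by omega), ih (by omega), Nat.descFactorial_succ]
      have : ((k - 1 - M : ℕ) : ℚ) = (k : ℚ) - ((M + 1 : ℕ) : ℚ) := by
        rw [← Nat.cast_sub (by omega)]
        congr 1
        omega
      rw [Nat.cast_mul, this, mul_comm]
  rw [e, Nat.descFactorial_eq_factorial_mul_choose, Nat.cast_mul]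

theorem prod_fac (d : ℕ) : ∏ i ∈ Finset.range d, ((i : ℚ) + 1) ^ 2 = (d.factorial : ℚ) ^ 2 := by
  rw [Finset.prod_pow]
  congr 1
  rw [← Finset.prod_range_add_one_eq_factorial]
  push_cast
  rfl

theorem prod_below (a k : ℕ) (h : a ≤ k) :
    ∏ m ∈ Finset.Ico a k, ((m : ℚ) - k) ^ 2 = ((k - a).factorial : ℚ) ^ 2 := by
  rw [Finset.prod_Ico_eq_prod_range, ← prod_fac, ← Finset.prod_range_reflect]
  refine Finset.prod_congr rfl fun i hi => ?_
  rw [Finset.mem_range] at hi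
  have e : ((a + (k - a - 1 - i) : ℕ) : ℚ) = (k : ℚ) - 1 - i := by
    have : a + (k - a - 1 - i) + (1 + i) = k := by omega
    have h2 : ((a + (k - a - 1 - i) + (1 + i) : ℕ) : ℚ) = (k : ℚ) := by rw [this]
    push_cast at h2 ⊢
    linarith
  rw [e]
  ring

theorem prod_above (k b : ℕ) :
    ∏ m ∈ Finset.Ico (k + 1) (b + 1), ((m : ℚ) - k) ^ 2 = ((b - k).factorial : ℚ) ^ 2 := by
  rw [Finset.prod_Ico_eq_prod_range, ← prod_fac, Nat.add_sub_add_right]
  refine Finset.prod_congr rfl fun i hi => ?_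
  push_cast
  ring

theorem erase_eq (n k : ℕ) (hk : k ∈ sF n) :
    (sF n).erase k = Finset.Ico (4 * n + 1) k ∪ Finset.Ico (k + 1) (12 * n + 1) := by
  ext m
  rw [Finset.mem_Icc] at hk
  rw [Finset.mem_erase, Finset.mem_union, Finset.mem_Ico, Finset.mem_Ico, Finset.mem_Icc]
  omega

theorem den_eq (n k : ℕ) (hk : k ∈ sF n) : ∏ m ∈ (sF n).erase k, ((m : ℚ) - k) ^ 2 =
    (((k - 4 * n - 1).factorial : ℚ) * ((12 * n - k).factorial : ℚ)) ^ 2 := by
  rw [erase_eq n k hk, Finset.prod_union, prod_below, prod_above, mul_pow]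
  · rw [Nat.sub_sub]
  · rw [Finset.mem_Icc] at hk
    omega
  · rw [Finset.disjoint_left]
    intro m h1 h2
    rw [Finset.mem_Ico] at h1 h2
    omega

/-- R2 -/
theorem r2 : StR2 := by
  intro n k hn hk
  rw [Finset.mem_Icc] at hk
  have hks : k ∈ sF n := by
    rw [Finset.mem_Icc]
    omega
  have e7 : ((8 * n).factorial : ℚ) = (8 * n : ℚ) * ((8 * n - 1).choose (k - 4 * n - 1) : ℚ) *
      (((k - 4 * n - 1).factorial : ℚ) * ((12 * n - k).factorial : ℚ)) := by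
    have h1 : (8 * n).factorial = (8 * n) * (8 * n - 1).factorial :=
      (Nat.mul_factorial_pred (by omega)).symm
    have h2 := Nat.choose_mul_factorial_mul_factorial (n := 8 * n - 1) (k := k - 4 * n - 1)
      (by omega)
    rw [show 8 * n - 1 - (k - 4 * n - 1) = 12 * n - k by omega] at h2
    rw [h1, ← h2]
    push_cast
    ring
  unfold RK
  rw [prod_desc k (3 * n) (by omega), prod_desc k (5 * n) (by omega), den_eq n k hks]
  unfold cF
  push_cast
  rw [e7]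
  have f1 : ((3 * n).factorial : ℚ) ≠ 0 := by exact_mod_cast (3 * n).factorial_ne_zero
  have f2 : ((5 * n).factorial : ℚ) ≠ 0 := by exact_mod_cast (5 * n).factorial_ne_zero
  have f3 : ((k - 4 * n - 1).factorial : ℚ) ≠ 0 := by
    exact_mod_cast (k - 4 * n - 1).factorial_ne_zero
  have f4 : ((12 * n - k).factorial : ℚ) ≠ 0 := by exact_mod_cast (12 * n - k).factorial_ne_zero
  field_simp

end Pool.Agent.TH609.E3.W924.R1
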